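import Pool.Agent.Helper446.Construct

/-!
Spans of atomless subsets of a computable basis are atomless subspaces.
-/

namespace Pool.Agent.Results.MP_a0087d_lc.AtomlessSpan

open Submodule Encodable

universe u v

/-- A set of elements of a coded type is computably enumerable. -/
def CE {V : Type v} [Primcodable V] (X : Set V) : Prop := REPred fun x => x ∈ X

/-- `V` is a computable vector space of countably infinite dimension over the computable field
`F`, with a dependence algorithm: linear independence of a finite set, given as a list of its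
elements, is decidable. (The codings are the `Primcodable` instances.) -/
structure IsComputableSpace (F : Type u) (V : Type v) [Field F] [Primcodable F]
    [AddCommGroup V] [Module F V] [Primcodable V] : Prop where
  field_add : Computable₂ fun a b : F => a + b
  field_mul : Computable₂ fun a b : F => a * b
  add : Computable₂ fun x y : V => x + y
  smul : Computable₂ fun (c : F) (x : V) => c • x
  infinite_dim : ¬ FiniteDimensional F V
  dependence : ComputablePred fun l : List V => LinearIndepOn F id {x | x ∈ l}

/-- `B` is a computable basis of `V`. -/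
structure IsComputableBasis (F : Type u) {V : Type v} [Field F] [AddCommGroup V] [Module F V]
    [Primcodable V] (B : Set V) : Prop where
  computable : ComputablePred fun x => x ∈ B
  linIndep : LinearIndepOn F id B
  spans : span F B = ⊤

/-- `M` is maximal in `B`. -/
structure IsMaximalIn {V : Type v} [Primcodable V] (B M : Set V) : Prop where
  ce : CE M
  subset : M ⊆ B
  coinfinite : (B \ M).Infinite
  maximal : ∀ W : Set V, CE W → M ⊆ W → W ⊆ B → (W \ M).Finite ∨ (B \ W).Finite

/-- `A` is an atomless subset of `B`. -/
structure IsAtomlessIn {V : Type v} [Primcodable V] (B A : Set V) : Prop where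
  ce : CE A
  subset : A ⊆ B
  coinfinite : (B \ A).Infinite
  no_maximal : ∀ M : Set V, IsMaximalIn B M → ¬ A ⊆ M

/-- `M` is a maximal c.e. subspace. -/
structure IsMaximalSubspace {F : Type u} {V : Type v} [Field F] [AddCommGroup V] [Module F V]
    [Primcodable V] (M : Submodule F V) : Prop where
  ce : CE (M : Set V)
  infinite_codim : ¬ FiniteDimensional F (V ⧸ M)
  maximal : ∀ W : Submodule F V, CE (W : Set V) → M ≤ W →
    FiniteDimensional F (W ⧸ M.submoduleOf W) ∨ FiniteDimensional F (V ⧸ W)

/-- `U` is an atomless c.e. subspace. -/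
structure IsAtomlessSubspace {F : Type u} {V : Type v} [Field F] [AddCommGroup V] [Module F V]
    [Primcodable V] (U : Submodule F V) : Prop where
  ce : CE (U : Set V)
  infinite_codim : ¬ FiniteDimensional F (V ⧸ U)
  no_maximal : ∀ M : Submodule F V, IsMaximalSubspace M → ¬ U ≤ M

open Pool.Agent.Helper446 Pool.Agent.Helper446.RE Pool.Agent.Helper446.Greedy
  Pool.Agent.Helper446.Construct

section proof

variable {F : Type u} {V : Type v} [Field F] [Primcodable F]
    [AddCommGroup V] [Module F V] [Primcodable V]

omit [Primcodable F] [Primcodable V] in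
theorem finite_map_iff (M W : Submodule F V) :
    FiniteDimensional F (W ⧸ M.submoduleOf W) ↔ FiniteDimensional F (W.map M.mkQ) := by
  have e : (W ⧸ M.submoduleOf W) ≃ₗ[F] (W.map M.mkQ) := by
    have h1 : LinearMap.ker (M.mkQ.domRestrict W) = M.submoduleOf W := by
      rw [LinearMap.domRestrict, LinearMap.ker_comp, ker_mkQ]
      rfl
    have h2 : LinearMap.range (M.mkQ.domRestrict W) = W.map M.mkQ := by
      rw [LinearMap.domRestrict, LinearMap.range_comp, range_subtype]
    exact (quotEquivOfEq _ _ h1.symm).trans
      ((M.mkQ.domRestrict W).quotKerEquivRange.trans (LinearEquiv.ofEq _ _ h2))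
  exact ⟨fun _ => e.finiteDimensional, fun _ => e.symm.finiteDimensional⟩

omit [Primcodable F] [Primcodable V] in
theorem infinite_codim_of {B A : Set V} (hli : LinearIndepOn F id B) (hA : A ⊆ B)
    (hinf : (B \ A).Infinite) : ¬ FiniteDimensional F (V ⧸ span F A) := by
  intro hfd
  apply hinf
  refine finite_of_disjoint hli Set.sdiff_subset (G := span F A) (W := ⊤) ?_ ?_ ?_
  · exact disjoint_span hli Set.sdiff_subset hA Set.disjoint_sdiff_left
  · exact fun x _ => mem_top
  · infer_instance

/-- The main construction: below every maximal subspace there is a maximal subset of the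
basis. -/
theorem exists_maximal_subset (hV : IsComputableSpace F V) {B : Set V}
    (hB : IsComputableBasis F B) {M : Submodule F V} (hM : IsMaximalSubspace M) :
    ∃ X : Set V, IsMaximalIn B X ∧ ∀ x ∈ B, x ∈ M → x ∈ X := by
  classical
  obtain ⟨m, hmc, hme⟩ := exists_enum (p := fun x : V => x ∈ M) hM.ce (a0 := 0) M.zero_mem
  have hBre : REPred fun x => x ∈ B := hB.computable.to_re
  obtain ⟨H, hHc, H0, hstep⟩ := exists_run (F := F) (B := B) (m := m) (w := wst V)
    hV.add hV.smul hBre hB.linIndep hB.spans hmc wst_comp
  set r := toRun (F := F) H0 hstep with hr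
  have hw : ∀ e s (x : V), wst V e s x = true → wst V e (s + 1) x = true :=
    fun e s x h => wst_mono (Nat.le_succ s) h
  have hMs : ∀ v, v ∈ M ↔ ∃ s, v ∈ Ms F m s := by
    intro v
    constructor
    · intro hv
      obtain ⟨n, rfl⟩ := (hme v).1 hv
      exact ⟨n + 1, subset_span ⟨n, Nat.lt_succ_self n, rfl⟩⟩
    · rintro ⟨s, hs⟩
      have h1 : Ms F m s ≤ M := by
        unfold Ms
        rw [span_le]
        rintro _ ⟨n, -, rfl⟩
        exact (hme _).2 ⟨n, rfl⟩
      exact h1 hs
  set X : Set V := {x | ∃ s, x ∈ deadf (H s)} with hX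
  have hXre : CE X := by
    refine exN (p := fun (x : V) s => x ∈ deadf (H s)) ?_
    exact RE.comp deadf_re (f := fun p : V × ℕ => (H p.2, p.1)) (by fun_prop)
  have hdead : ∀ s, r.dead s ⊆ B := by
    intro s
    induction s with
    | zero => rw [r.dead_zero]; exact Set.empty_subset _
    | succ s ih =>
      intro x hx
      by_cases h1 : x ∈ r.dead s
      · exact ih h1
      · obtain ⟨S, c, hS, hxS, -⟩ := r.drop_data h1 hx
        exact (hS x hxS).1
  have hXB : X ⊆ B := by
    rintro x ⟨s, hs⟩
    exact hdead s hs
  have hcore : B \ X = r.core := by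
    ext x
    simp only [Set.mem_sdiff, hX, Set.mem_ofPred_eq, not_exists]
    rfl
  have hcoinf : (B \ X).Infinite := by
    rw [hcore]
    exact r.core_infinite hB.spans hw M hMs hM.infinite_codim
  have hdre : ∀ n v, CE (r.dset n v) := by
    intro n v
    refine RE.and hBre ?_
    refine exN (p := fun (x : V) s => x ∉ deadf (H s) ∧ bv (wst V) s n x < v) ?_
    refine RE.and ?_ ?_
    · exact RE.comp not_deadf_re (f := fun p : V × ℕ => (H p.2, p.1)) (by fun_prop)
    · refine RE.lt ?_ (by fun_prop)
      exact (bv_comp wst_comp).comp (g := fun p : V × ℕ => ((p.2, n), p.1)) (by fun_prop)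
  have hmax : ∀ n v, FiniteDimensional F ((M ⊔ span F (r.dset n v)).map M.mkQ) ∨
      FiniteDimensional F (V ⧸ (M ⊔ span F (r.dset n v))) := by
    intro n v
    have h1 : CE ((M ⊔ span F (r.dset n v) : Submodule F V) : Set V) :=
      re_sup hV.add hM.ce (re_span hV.add hV.smul (hdre n v))
    rcases hM.maximal _ h1 le_sup_left with h | h
    · left; exact (finite_map_iff _ _).1 h
    · right; exact h
  refine ⟨X, ⟨hXre, hXB, hcoinf, ?_⟩, ?_⟩
  · intro W hW hXW hWB
    obtain ⟨e, he⟩ := wst_univ hW
    have hcoh := r.core_cohesive hB.linIndep hB.spans hw encode_injective M hMs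
      hM.infinite_codim hmax e
    have hWe : {x | ∃ s, wst V e s x = true} = W := by
      ext x; exact (he x).symm
    rw [hWe] at hcoh
    rcases hcoh with h | h
    · left
      refine h.subset ?_
      rintro x ⟨h1, h2⟩
      refine ⟨?_, h1⟩
      rw [← hcore]
      exact ⟨hWB h1, h2⟩
    · right
      refine h.subset ?_
      rintro x ⟨h1, h2⟩
      refine ⟨?_, h2⟩
      rw [← hcore]
      exact ⟨h1, fun h3 => h2 (hXW h3)⟩
  · intro x hxB hxM
    by_contra hxX
    have hxc : x ∈ r.core := by rw [← hcore]; exact ⟨hxB, hxX⟩
    have h1 := Submodule.disjoint_def.1 (r.core_disjoint hB.linIndep hB.spans M hMs) x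
      (subset_span hxc) hxM
    exact hB.linIndep.ne_zero hxB h1

end proof

/-- For every computable basis `B` of a computable vector space (of infinite dimension, with a
dependence algorithm) the span of an atomless subset of `B` is an atomless subspace. -/
theorem result {F : Type u} {V : Type v} [Field F] [Primcodable F] [AddCommGroup V]
    [Module F V] [Primcodable V] (hV : IsComputableSpace F V) (B : Set V)
    (hB : IsComputableBasis F B) (A : Set V) (hA : IsAtomlessIn B A) :
    IsAtomlessSubspace (span F A) := by
  refine ⟨re_span hV.add hV.smul hA.ce, infinite_codim_of hB.linIndep hA.subset hA.coinfinite, ?_⟩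
  intro M hM hAM
  obtain ⟨X, hX, hsub⟩ := exists_maximal_subset hV hB hM
  exact hA.no_maximal X hX fun x hx => hsub x (hA.subset hx) (hAM (subset_span hx))

end Pool.Agent.Results.MP_a0087d_lc.AtomlessSpan
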